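import Mathlib

set_option autoImplicit false
open Filter Topology

namespace Pool.Agent.Results.MP_0b90e2_co.TuranFailure

/-- The edges of the complete graph on `n` vertices. -/
abbrev Edge (n : ℕ) := {e : Sym2 (Fin n) // ¬ e.IsDiag}

/-- The `r`-edge-colorings of `K_n` in which every copy of `K_k` receives at most `s - 1`
distinct colors. -/
abbrev Good (k s r n : ℕ) := {c : Edge n → Fin r //
  ∀ S : Finset (Fin n), S.card = k →
    ((Finset.univ.filter (fun e : Edge n => e.1 ∈ S.sym2)).image c).card < s}

open SimpleGraph in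
lemma turan_growth (m : ℕ) (hm : 2 ≤ m) : ∀ n : ℕ,
    (m - 1) * (n.choose 2 + n / m) ≤ m * (turanGraph n m).edgeFinset.card := by
  intro n
  induction n using Nat.strong_induction_on with
  | _ n ih =>
    rcases lt_or_ge n m with h | h
    · have h1 : (turanGraph n m).edgeFinset.card = n.choose 2 := by
        rw [card_edgeFinset_turanGraph, Nat.mod_eq_of_lt h, Nat.sub_self, Nat.zero_mul,
          Nat.zero_div, Nat.zero_add]
      rw [h1, Nat.div_eq_of_lt h, add_zero]
      exact Nat.mul_le_mul_right _ (Nat.sub_le _ _)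
    · obtain ⟨n', rfl⟩ : ∃ n', n = n' + m := ⟨n - m, by omega⟩
      rw [card_edgeFinset_turanGraph_add]
      have ih' := ih n' (by omega)
      have hdiv : (n' + m) / m = n' / m + 1 := Nat.add_div_right _ (by omega)
      rw [hdiv]
      have hch : (n' + m).choose 2 = n'.choose 2 + n' * m + m.choose 2 := by
        have e1 := Nat.choose_two_right (n' + m)
        have key : ∀ a b : ℕ, (a + b).choose 2 = a.choose 2 + a * b + b.choose 2 := by
          intro a b
          induction b with
          | zero => simp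
          | succ b ihb =>
            rw [← add_assoc, Nat.choose_succ_succ' (a + b) 1, ihb, Nat.choose_succ_succ' b 1]
            simp only [Nat.choose_one_right]
            ring
        exact key n' m
      rw [hch]
      have hc : m - 1 ≤ m.choose 2 := by
        rw [Nat.choose_two_right, Nat.le_div_iff_mul_le (by norm_num)]
        calc (m - 1) * 2 ≤ (m - 1) * m := Nat.mul_le_mul_left _ hm
          _ = m * (m - 1) := mul_comm _ _
      obtain ⟨p, rfl⟩ : ∃ p, m = p + 1 := ⟨m - 1, by omega⟩
      simp only [Nat.add_sub_cancel] at *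
      nlinarith

/-- The colouring with prescribed colours on the edges of the Turan graph and colour `0`
elsewhere. -/
def col (n m r : ℕ) (hr : 0 < r)
    (f : {e : Sym2 (Fin n) // e ∈ (SimpleGraph.turanGraph n m).edgeSet} → Fin r) :
    Edge n → Fin r := fun e =>
  open Classical in if h : e.1 ∈ (SimpleGraph.turanGraph n m).edgeSet then f ⟨e.1, h⟩ else ⟨0, hr⟩

lemma col_inj (n m r : ℕ) (hr : 0 < r) : Function.Injective (col n m r hr) := by
  intro f g hfg
  funext e
  have hne : ¬ e.1.IsDiag := SimpleGraph.not_isDiag_of_mem_edgeSet _ e.2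
  have h := congrFun hfg ⟨e.1, hne⟩
  unfold col at h
  rw [dif_pos e.2, dif_pos e.2] at h
  exact h

open SimpleGraph in
/-- A set of `k` vertices spans at most `t_m(k)` edges of the Turan graph. -/
lemma span_le (n m k : ℕ) (hm : 0 < m) (S : Finset (Fin n)) (hS : S.card = k) :
    ((turanGraph n m).edgeFinset.filter (fun e => e ∈ S.sym2)).card ≤
      (turanGraph k m).edgeFinset.card := by
  classical
  let G : SimpleGraph S := (turanGraph n m).comap (fun x : S => (x : Fin n))
  have hle : G ⊑ turanGraph n m :=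
    (SimpleGraph.Embedding.comap (Function.Embedding.subtype (fun x => x ∈ S))
      (turanGraph n m)).isContained
  have hfree : G.CliqueFree (m + 1) := (turanGraph_cliqueFree hm).comap hle
  have h1 : G.edgeFinset.card ≤ (turanGraph k m).edgeFinset.card := by
    have h := hfree.card_edgeFinset_le
    rw [card_edgeFinset_turanGraph]
    simpa [Fintype.card_coe, hS] using h
  refine le_trans ?_ h1
  have hsub : (turanGraph n m).edgeFinset.filter (fun e => e ∈ S.sym2) ⊆
      G.edgeFinset.image (Sym2.map (fun x : S => (x : Fin n))) := by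
    intro e he
    rw [Finset.mem_filter, mem_edgeFinset] at he
    obtain ⟨he1, he2⟩ := he
    induction e using Sym2.ind with
    | _ x y =>
      rw [Finset.mk_mem_sym2_iff] at he2
      rw [Finset.mem_image]
      refine ⟨s(⟨x, he2.1⟩, ⟨y, he2.2⟩), ?_, ?_⟩
      · rw [mem_edgeFinset, mem_edgeSet]
        exact he1
      · rfl
  exact (Finset.card_le_card hsub).trans Finset.card_image_le

lemma col_good (k s r n m : ℕ) (hm : 0 < m) (hr : 0 < r)
    (hk : (SimpleGraph.turanGraph k m).edgeFinset.card + 2 ≤ s)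
    (f : {e : Sym2 (Fin n) // e ∈ (SimpleGraph.turanGraph n m).edgeSet} → Fin r) :
    ∀ S : Finset (Fin n), S.card = k →
      ((Finset.univ.filter (fun e : Edge n => e.1 ∈ S.sym2)).image (col n m r hr f)).card < s := by
  intro S hS
  classical
  let T := (SimpleGraph.turanGraph n m).edgeFinset.filter (fun e => e ∈ S.sym2)
  have hsub : ((Finset.univ.filter (fun e : Edge n => e.1 ∈ S.sym2)).image (col n m r hr f)) ⊆
      insert ⟨0, hr⟩ (T.attach.image (fun e => f ⟨e.1, by
        have := (Finset.mem_filter.mp e.2).1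
        rwa [SimpleGraph.mem_edgeFinset] at this⟩)) := by
    intro x hx
    rw [Finset.mem_image] at hx
    obtain ⟨e, he, rfl⟩ := hx
    rw [Finset.mem_filter] at he
    unfold col
    split_ifs with h
    · apply Finset.mem_insert_of_mem
      rw [Finset.mem_image]
      refine ⟨⟨e.1, ?_⟩, Finset.mem_attach _ _, rfl⟩
      rw [Finset.mem_filter, SimpleGraph.mem_edgeFinset]
      exact ⟨h, he.2⟩
    · exact Finset.mem_insert_self _ _
  have hc := Finset.card_le_card hsub
  have hc2 := Finset.card_insert_le (⟨0, hr⟩ : Fin r) (T.attach.image (fun e => f ⟨e.1, by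
        have := (Finset.mem_filter.mp e.2).1
        rwa [SimpleGraph.mem_edgeFinset] at this⟩))
  have hc3 := Finset.card_image_le (s := T.attach) (f := (fun e => f ⟨e.1, by
        have := (Finset.mem_filter.mp e.2).1
        rwa [SimpleGraph.mem_edgeFinset] at this⟩))
  rw [Finset.card_attach] at hc3
  have hc4 := span_le n m k hm S hS
  have hc5 : T.card ≤ (SimpleGraph.turanGraph k m).edgeFinset.card := hc4
  omega

lemma card_good_ge (k s r n m : ℕ) (hm : 0 < m) (hr : 0 < r)
    (hk : (SimpleGraph.turanGraph k m).edgeFinset.card + 2 ≤ s) :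
    r ^ (SimpleGraph.turanGraph n m).edgeFinset.card ≤ Nat.card (Good k s r n) := by
  classical
  let F : ({e : Sym2 (Fin n) // e ∈ (SimpleGraph.turanGraph n m).edgeSet} → Fin r) →
      Good k s r n := fun f => ⟨col n m r hr f, col_good k s r n m hm hr hk f⟩
  have hF : Function.Injective F := by
    intro f g h
    apply col_inj n m r hr
    exact congrArg Subtype.val h
  have h1 := Nat.card_le_card_of_injective F hF
  refine le_trans (le_of_eq ?_) h1
  rw [Nat.card_eq_fintype_card, Fintype.card_fun, Fintype.card_fin]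
  congr 1
  rw [SimpleGraph.edgeFinset_card]

lemma card_good_ge_pow (k s r n m : ℕ) (hs : 2 ≤ s) (hm : 2 ≤ m)
    (hk : (SimpleGraph.turanGraph k m).edgeFinset.card + 2 ≤ s)
    (hr : (s - 1) ^ m ≤ r ^ (m - 1)) :
    (s - 1) ^ (n.choose 2 + n / m) ≤ Nat.card (Good k s r n) := by
  have hr0 : 0 < r := by
    rcases Nat.eq_zero_or_pos r with h | h
    · subst h
      rw [zero_pow (by omega)] at hr
      have : 0 < (s - 1) ^ m := pow_pos (by omega) m
      omega
    · exact h
  refine le_trans ?_ (card_good_ge k s r n m (by omega) hr0 hk)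
  set t := (SimpleGraph.turanGraph n m).edgeFinset.card with ht
  have hg := turan_growth m hm n
  have h1 : ((s - 1) ^ (n.choose 2 + n / m)) ^ (m - 1) ≤ (r ^ t) ^ (m - 1) := by
    calc ((s - 1) ^ (n.choose 2 + n / m)) ^ (m - 1)
        = (s - 1) ^ ((m - 1) * (n.choose 2 + n / m)) := by rw [← pow_mul, mul_comm]
      _ ≤ (s - 1) ^ (m * t) := Nat.pow_le_pow_right (by omega) hg
      _ = ((s - 1) ^ m) ^ t := by rw [pow_mul]
      _ ≤ (r ^ (m - 1)) ^ t := Nat.pow_le_pow_left hr _
      _ = (r ^ t) ^ (m - 1) := by rw [← pow_mul, ← pow_mul, mul_comm]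
  exact (Nat.pow_le_pow_iff_left (by omega)).mp h1

theorem result : ∀ k s r m : ℕ, 3 ≤ k → 2 ≤ m →
    (SimpleGraph.turanGraph k m).edgeFinset.card + 2 ≤ s → (s - 1) ^ m ≤ r ^ (m - 1) →
      Tendsto
        (fun n : ℕ =>
          (Nat.card {c : {e : Sym2 (Fin n) // ¬ e.IsDiag} → Fin r //
              ∀ S : Finset (Fin n), S.card = k →
                ((Finset.univ.filter
                    (fun e : {e : Sym2 (Fin n) // ¬ e.IsDiag} => e.1 ∈ S.sym2)).image c).card < s} : ℝ)
            / ((s : ℝ) - 1) ^ (n.choose 2))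
        atTop atTop := by
  intro k s r m hk3 hm hk hr
  have hs : 3 ≤ s := by
    have h2 : 0 < (SimpleGraph.turanGraph k m).edgeFinset.card := by
      rw [Finset.card_pos]
      refine ⟨s(⟨0, by omega⟩, ⟨1, by omega⟩), ?_⟩
      rw [SimpleGraph.mem_edgeFinset, SimpleGraph.mem_edgeSet, SimpleGraph.turanGraph_adj]
      simp only
      rw [Nat.zero_mod, Nat.mod_eq_of_lt (by omega)]
      norm_num
    omega
  have hs1 : ((s : ℝ) - 1) = ((s - 1 : ℕ) : ℝ) := by
    rw [Nat.cast_sub (by omega)]
    simp
  have hs2 : (1 : ℝ) < ((s - 1 : ℕ) : ℝ) := by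
    have : 1 < s - 1 := by omega
    exact_mod_cast this
  have hlim : Tendsto (fun n : ℕ => ((s - 1 : ℕ) : ℝ) ^ (n / m)) atTop atTop := by
    apply (tendsto_pow_atTop_atTop_of_one_lt hs2).comp
    exact Nat.tendsto_div_const_atTop (by omega)
  refine tendsto_atTop_mono ?_ hlim
  intro n
  have hpos : (0 : ℝ) < ((s - 1 : ℕ) : ℝ) ^ (n.choose 2) := by positivity
  rw [hs1, le_div_iff₀ hpos, ← pow_add, add_comm]
  have h := card_good_ge_pow k s r n m (by omega) hm hk hr
  exact_mod_cast h

end Pool.Agent.Results.MP_0b90e2_co.TuranFailure
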